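import Pool.Agent.helper13.RF.Spec1

/-!
# INV (project RF, MP_16912e_nt): invariant ideals of unramified extensions are extended
-/

set_option autoImplicit false

open NumberField
open scoped nonZeroDivisors

namespace Pool.Agent.RF

/-- the stabiliser of an ideal -/
noncomputable def INV_stab {K L : Type} [Field K] [NumberField K] [Field L] [NumberField L] [Algebra K L] (I : Ideal (𝓞 L)) :
    Subgroup (L ≃ₐ[K] L) where
  carrier := {τ | ∀ x, gO τ x ∈ I ↔ x ∈ I}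
  one_mem' := by
    intro x
    have h1 : gO (1 : L ≃ₐ[K] L) = 1 := map_one (galRestrict (𝓞 K) K L (𝓞 L))
    rw [h1]
    rfl
  mul_mem' := by
    intro a b ha hb x
    have h1 : gO (a * b) = gO a * gO b := map_mul (galRestrict (𝓞 K) K L (𝓞 L)) a b
    rw [h1, AlgEquiv.mul_apply, ha, hb]
  inv_mem' := by
    intro a ha x
    have h1 : gO a * gO a⁻¹ = 1 := by
      have h2 : gO (a * a⁻¹) = gO a * gO a⁻¹ := map_mul (galRestrict (𝓞 K) K L (𝓞 L)) a a⁻¹
      rw [← h2, mul_inv_cancel]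
      exact map_one (galRestrict (𝓞 K) K L (𝓞 L))
    have h3 : gO a (gO a⁻¹ x) = x := by
      rw [← AlgEquiv.mul_apply, h1]
      rfl
    rw [← ha (gO a⁻¹ x), h3]

theorem INV_all {K L : Type} [Field K] [NumberField K] [Field L] [NumberField L] [Algebra K L] (σ : L ≃ₐ[K] L)
    (hσ : ∀ τ : L ≃ₐ[K] L, τ ∈ Subgroup.zpowers σ) {I : Ideal (𝓞 L)} (hI : I.map (gO σ) = I) (τ : L ≃ₐ[K] L) (x : 𝓞 L) :
    gO τ x ∈ I ↔ x ∈ I := by
  have h1 : σ ∈ INV_stab (K := K) I := by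
    intro x
    constructor
    · intro hx
      have h2 : gO σ x ∈ I.map (gO σ : 𝓞 L ≃+* 𝓞 L) := by
        have h3 : I.map (gO σ : 𝓞 L ≃+* 𝓞 L) = I.map (gO σ) := rfl
        rw [h3, hI]
        exact hx
      obtain ⟨y, hy, hyx⟩ := (Ideal.mem_map_of_equiv (gO σ : 𝓞 L ≃+* 𝓞 L) (gO σ x)).1 h2
      have h4 : y = x := (gO σ).injective hyx
      rw [← h4]
      exact hy
    · intro hx
      have h2 := Ideal.mem_map_of_mem (gO σ) hx
      rwa [hI] at h2
  have h2 : Subgroup.zpowers σ ≤ INV_stab (K := K) I := (Subgroup.zpowers_le).2 h1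
  exact h2 (hσ τ) x

theorem INV : INV_stmt := by
  intro K L _ _ _ _ _ _ σ hσ hunr I
  induction I using WellFoundedGT.induction with
  | ind I ih =>
    intro hI0 hI
    by_cases hIt : I = ⊤
    · refine ⟨⊤, ?_⟩
      rw [Ideal.map_top, hIt]
    obtain ⟨P, hPm, hIP⟩ := Ideal.exists_le_maximal I hIt
    have hPp : P.IsPrime := hPm.isPrime
    have hP0 : P ≠ ⊥ := fun h => hI0 (le_bot_iff.1 (h ▸ hIP))
    obtain ⟨p, hp⟩ : ∃ p : Ideal (𝓞 K), p = P.under (𝓞 K) := ⟨_, rfl⟩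
    have hover : P.LiesOver p := ⟨hp⟩
    have hp0 : p ≠ ⊥ := by
      rw [hp]
      exact Ideal.under_ne_bot (𝓞 K) hP0
    have hpp : p.IsPrime := by
      rw [hp]
      infer_instance
    have hpm : p.IsMaximal := hpp.isMaximal hp0
    have hle : ∀ Q ∈ p.primesOver (𝓞 L), I ≤ Q := by
      intro Q hQ
      have hPmem : P ∈ p.primesOver (𝓞 L) := ⟨hPp, hover⟩
      obtain ⟨τ, hτ⟩ := Ideal.exists_comap_galRestrict_eq (𝓞 K) K L (𝓞 L) hPmem hQ
      intro x hx
      rw [← hτ]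
      exact hIP ((INV_all σ hσ hI τ x).2 hx)
    have hprod := Ideal.map_algebraMap_eq_finsetProd_pow (R := 𝓞 L) (S := 𝓞 K) (p := p) hp0
    have hdvd : p.map (algebraMap (𝓞 K) (𝓞 L)) ∣ I := by
      rw [hprod]
      have h1 : ∀ Q ∈ (p.primesOver (𝓞 L)).toFinset, Q ^ Q.ramificationIdx (𝓞 K) = Q := by
        intro Q hQ
        rw [Set.mem_toFinset] at hQ
        have hQ0 : Q ≠ ⊥ := fun h => hI0 (le_bot_iff.1 (h ▸ hle Q hQ))
        rw [hunr Q hQ.1 hQ0, pow_one]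
      rw [Finset.prod_congr rfl h1]
      refine Finset.prod_primes_dvd I ?_ ?_
      · intro Q hQ
        rw [Set.mem_toFinset] at hQ
        have hQ0 : Q ≠ ⊥ := fun h => hI0 (le_bot_iff.1 (h ▸ hle Q hQ))
        have := hQ.1
        exact Ideal.prime_of_isPrime hQ0 hQ.1
      · intro Q hQ
        rw [Set.mem_toFinset] at hQ
        exact Ideal.dvd_iff_le.2 (hle Q hQ)
    obtain ⟨I', hI'⟩ := hdvd
    have hpL0 : p.map (algebraMap (𝓞 K) (𝓞 L)) ≠ 0 := by
      intro h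
      rw [h, zero_mul] at hI'
      exact hI0 hI'
    have hI'0 : I' ≠ ⊥ := by
      intro h
      rw [h, ← Ideal.zero_eq_bot, mul_zero] at hI'
      exact hI0 hI'
    have hinvp : (p.map (algebraMap (𝓞 K) (𝓞 L))).map (gO σ) = p.map (algebraMap (𝓞 K) (𝓞 L)) := by
      have h1 : (p.map (algebraMap (𝓞 K) (𝓞 L))).map ((gO σ : 𝓞 L →ₐ[𝓞 K] 𝓞 L) : 𝓞 L →+* 𝓞 L) = p.map (algebraMap (𝓞 K) (𝓞 L)) := by
        rw [Ideal.map_map]
        congr 1
        ext x
        simp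
      exact h1
    have hinv' : I'.map (gO σ) = I' := by
      have h1 : (p.map (algebraMap (𝓞 K) (𝓞 L))) * I'.map (gO σ) = (p.map (algebraMap (𝓞 K) (𝓞 L))) * I' := by
        rw [← hI']
        conv_rhs => rw [← hI, hI', Ideal.map_mul, hinvp]
      exact mul_left_cancel₀ hpL0 h1
    have hlt : I' > I := by
      refine lt_of_le_of_ne ?_ ?_
      · exact Ideal.dvd_iff_le.1 ⟨_, hI'.trans (mul_comm _ _)⟩
      · intro h
        have h1 : (1 : Ideal (𝓞 L)) * I' = p.map (algebraMap (𝓞 K) (𝓞 L)) * I' := by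
          rw [one_mul, ← hI', h]
        have h2 : (1 : Ideal (𝓞 L)) = p.map (algebraMap (𝓞 K) (𝓞 L)) := mul_right_cancel₀ hI'0 h1
        have h3 : p.map (algebraMap (𝓞 K) (𝓞 L)) ≤ P := by
          rw [Ideal.map_le_iff_le_comap, hp]
        rw [← h2, Ideal.one_eq_top, top_le_iff] at h3
        exact hPp.ne_top h3
    obtain ⟨J, hJ⟩ := ih I' hlt hI'0 hinv'
    refine ⟨p * J, ?_⟩
    rw [Ideal.map_mul, hJ, ← hI']

end Pool.Agent.RF
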