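import Pool.Agent.helper60.RF.SpecB

/-!
# RF (MP_16912e_nt), block B: row CNG

Output 2 of block B: good points, `D₀` large compared with `f`.
-/

set_option autoImplicit false

namespace Pool.Agent.RF

open NumberField

lemma CNG_f1 {f : ℕ} (hf : f ≠ 0) : f1 f 1 = f := by
  classical
  unfold f1
  have h : f.primeFactors.filter (fun l => ¬ l ∣ 1) = f.primeFactors := by
    refine Finset.filter_true_of_mem fun l hl h1 => ?_
    have h2 := Nat.prime_of_mem_primeFactors hl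
    exact h2.one_lt.ne' (Nat.dvd_one.1 h1)
  rw [h]
  exact Nat.prod_factorization_pow_eq_self hf

lemma CNG_sameT {D : ℤ} {F : Type} [Field F] [NumberField F] (C : Ctx D F) (f : ℕ) (p q : Pt) : SameT C f 1 p q := by
  intro P hP h1
  rw [Nat.cast_one] at h1
  exact absurd ((Ideal.eq_top_iff_one P).2 h1) hP.ne_top

/-- **CNG.** -/
theorem CNG (h1 : MEX_stmt) (h2 : CTX_stmt) (h3 : TRV_stmt) (h4 : CLG_stmt) (h5 : MUL_stmt) : CNG_stmt := by
  intro D₀ f hD hsq h5D hf K _ _ hK hKx S hS hk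
  have hD5 : D₀ ≠ 5 := by
    rintro rfl
    exact h5D (dvd_refl _)
  obtain ⟨F, _, _, s, r, w, hM⟩ := h1 D₀ hD hsq hD5
  obtain ⟨C, rfl, _⟩ := h2 D₀ F s r w hD hsq h5D hM
  have hD0 : 0 < D₀ := by linarith
  have hB : (0 : ℝ) ≤ 1 + 181 * 36 ^ f.primeFactors.card := by positivity
  refine h4 D₀ F C f hD hsq hD5 ⟨r, w, hM⟩ K hK hKx _ hB S ?_ ?_
  · intro p hp
    obtain ⟨a1, a2, a3, a4⟩ := hS p hp
    refine ⟨a1, a2, a3, fun hγ => ?_⟩
    have h6 := h3 D₀ F C p f hD0 a1 a2 a3 a4 hγ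
    linarith
  · intro T hT hE
    rcases T.eq_empty_or_nonempty with rfl | ⟨p, hp⟩
    · simpa using hB
    · have hf0 : f ≠ 0 := by
        rintro rfl
        obtain ⟨a1, a2, _, _⟩ := hS p (hT hp)
        have h6 := a1.D0
        rw [a2] at h6
        simp at h6
      have h6 := h5 D₀ F C f 1 hsq hD0 T (fun p hp => hS p (hT hp)) (fun p hp q hq => hk p (hT hp) q (hT hq))
        (fun p hp q hq => ⟨CNG_sameT C f p q, hE p hp q hq⟩)
      rw [CNG_f1 hf0, Nat.cast_one, one_mul, div_self (Nat.cast_ne_zero.2 hf0)] at h6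
      refine h6.trans (le_of_eq ?_)
      ring

end Pool.Agent.RF
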