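import Pool.Agent.helper60.RF.SpecB

/-!
# RF (MP_16912e_nt), block B: row GDV

The content divides the conductor.
-/

set_option autoImplicit false

namespace Pool.Agent.RF

open NumberField

lemma GDV_re_mul_int (a : ℤ) (x : OO) : ((a : OO) * x).re = a * x.re := by
  rw [QuadraticAlgebra.re_mul]
  simp

lemma GDV_im_mul_int (a : ℤ) (x : OO) : ((a : OO) * x).im = a * x.im := by
  rw [QuadraticAlgebra.im_mul]
  simp

lemma GDV_sq (D₀ : ℤ) (g f : ℕ) (hg : 0 < g) (hD : Squarefree D₀) (h : (g : ℤ) ^ 2 ∣ D₀ * (f : ℤ) ^ 2) : g ∣ f := by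
  obtain ⟨d, g', f', hd, hco, rfl, rfl⟩ : ∃ d g' f' : ℕ, 0 < d ∧ Nat.Coprime g' f' ∧ g = g' * d ∧ f = f' * d := by
    obtain ⟨g', f', h1, h2, h3⟩ := Nat.exists_coprime g f
    exact ⟨Nat.gcd g f, g', f', Nat.gcd_pos_of_pos_left _ hg, h1, h2, h3⟩
  have hd' : (d : ℤ) ^ 2 ≠ 0 := by positivity
  have h1 : ((g' : ℤ) ^ 2) * (d : ℤ) ^ 2 ∣ (D₀ * (f' : ℤ) ^ 2) * (d : ℤ) ^ 2 := by
    have e1 : ((g' * d : ℕ) : ℤ) ^ 2 = ((g' : ℤ) ^ 2) * (d : ℤ) ^ 2 := by push_cast; ring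
    have e2 : D₀ * ((f' * d : ℕ) : ℤ) ^ 2 = (D₀ * (f' : ℤ) ^ 2) * (d : ℤ) ^ 2 := by push_cast; ring
    rw [e1, e2] at h
    exact h
  have h2 : (g' : ℤ) ^ 2 ∣ D₀ * (f' : ℤ) ^ 2 := (mul_dvd_mul_iff_right hd').1 h1
  have h3 : IsCoprime ((g' : ℤ) ^ 2) ((f' : ℤ) ^ 2) := (Nat.isCoprime_iff_coprime.2 hco).pow
  have h4 : (g' : ℤ) ^ 2 ∣ D₀ := h3.dvd_of_dvd_mul_right h2
  have h5 : IsUnit (g' : ℤ) := hD _ (by rw [← sq]; exact h4)
  have h6 : g' = 1 := by
    have := Int.isUnit_iff_natAbs_eq.1 h5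
    simpa using this
  rw [h6, one_mul]
  exact Dvd.intro_left f' rfl

/-- **GDV.** -/
theorem GDV (h1 : TRA_stmt) : GDV_stmt := by
  intro p hp D₀ f hD hDf
  set g : ℕ := ct p with hg
  have hn0 : p.n ≠ 0 := by
    intro h0
    obtain ⟨c, hc⟩ := hp.n1
    rw [h0, zero_sub] at hc
    have h2 := congrArg QuadraticAlgebra.re hc
    have e : (25 : OO) = ((25 : ℤ) : OO) := by norm_num
    rw [e, GDV_re_mul_int, QuadraticAlgebra.re_neg, QuadraticAlgebra.re_one] at h2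
    omega
  have hgp : 0 < g := by
    rw [hg]
    unfold ct
    rw [Int.gcd_pos_iff]
    by_contra h
    push Not at h
    exact hn0 (QuadraticAlgebra.ext h.1 h.2)
  have hgn : (g : OO) ∣ p.n := by
    obtain ⟨a, ha⟩ : (g : ℤ) ∣ p.n.re := Int.gcd_dvd_left _ _
    obtain ⟨b, hb⟩ : (g : ℤ) ∣ p.n.im := Int.gcd_dvd_right _ _
    refine ⟨⟨a, b⟩, ?_⟩
    have e : (g : OO) = ((g : ℤ) : OO) := by norm_cast
    apply QuadraticAlgebra.ext
    · rw [e, GDV_re_mul_int, ha]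
    · rw [e, GDV_im_mul_int, hb]
  have hsg : star (g : OO) = (g : OO) := star_natCast g
  have hgn' : (g : OO) ∣ star p.n := by
    obtain ⟨c, hc⟩ := hgn
    exact ⟨star c, by rw [hc, star_mul', hsg]⟩
  -- coprimality
  have c25 : IsCoprime (25 : OO) (g : OO) := by
    obtain ⟨c, hc⟩ := hp.n1
    have h2 : IsCoprime (25 : OO) p.n := ⟨-c, 1, by linear_combination hc⟩
    exact h2.of_isCoprime_of_dvd_right hgn
  have c5 : IsCoprime (5 : OO) (g : OO) := c25.of_isCoprime_of_dvd_left ⟨5, by norm_num⟩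
  have ck : IsCoprime p.k (g : OO) := hp.kn.of_isCoprime_of_dvd_right hgn
  have c2 : IsCoprime (2 : OO) (g : OO) := hp.n2.of_isCoprime_of_dvd_right hgn
  have ck' : IsCoprime (star p.k) (g : OO) := by
    obtain ⟨a, b, hab⟩ := ck
    refine ⟨star a, star b, ?_⟩
    have h2 := congrArg star hab
    rw [star_add, star_mul', star_mul', hsg, star_one] at h2
    exact h2
  have hgX : (g : OO) ∣ p.X := by
    have h2 : (g : OO) ∣ 2 * p.X * star (25 * p.k) := by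
      have h3 : (g : OO) ∣ p.n * p.M + ph * star p.n * star p.M :=
        dvd_add (hgn.mul_right _) ((hgn'.mul_left _).mul_right _)
      rw [(h1 p hp).1] at h3
      exact (dvd_neg).1 h3
    have h3 : star (25 * p.k) = 25 * star p.k := by
      rw [star_mul']
      congr 1
    rw [h3] at h2
    have h4 : IsCoprime (g : OO) (25 * star p.k) := (c25.mul_left ck').symm
    have h5 := h4.dvd_of_dvd_mul_right h2
    exact c2.symm.dvd_of_dvd_mul_left h5
  refine ⟨?_, hgX, hgn, hgp⟩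
  have hg2 : (g : OO) ^ 2 ∣ w2 * (p.D : OO) * (25 * p.k) ^ 2 := by
    have h2 : w2 * (p.D : OO) * (25 * p.k) ^ 2 = p.n ^ 2 * star p.n - p.X ^ 2 := by
      linear_combination hp.e1
    rw [h2]
    exact dvd_sub ((pow_dvd_pow_of_dvd hgn 2).mul_right _) (pow_dvd_pow_of_dvd hgX 2)
  have hg3 : (g : OO) ^ 2 ∣ w2 * (p.D : OO) := by
    have h2 : IsCoprime ((g : OO) ^ 2) ((25 * p.k) ^ 2) := (c25.mul_left ck).symm.pow
    exact h2.dvd_of_dvd_mul_right hg2
  have hg4 : (g : OO) ^ 2 ∣ (p.D : OO) := by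
    have h2 : (g : OO) ^ 2 ∣ 5 * (p.D : OO) := by
      have h3 : star w2 * (w2 * (p.D : OO)) = 5 * (p.D : OO) := by
        have h4 : star w2 * w2 = (5 : OO) := by
          have e : (5 : OO) = ((5 : ℤ) : OO) := by norm_num
          rw [e]
          apply QuadraticAlgebra.ext
          · rw [QuadraticAlgebra.re_intCast]
            simp [w2]
          · rw [QuadraticAlgebra.im_intCast]
            simp [w2]
        rw [← mul_assoc, h4]
      rw [← h3]
      exact hg3.mul_left _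
    exact (c5.symm.pow_left (m := 2)).dvd_of_dvd_mul_left h2
  have hg5 : (g : ℤ) ^ 2 ∣ p.D := by
    obtain ⟨c, hc⟩ := hg4
    refine ⟨c.re, ?_⟩
    have e : (g : OO) ^ 2 = (((g : ℤ) ^ 2 : ℤ) : OO) := by push_cast; rfl
    rw [e] at hc
    have h2 := congrArg QuadraticAlgebra.re hc
    rw [GDV_re_mul_int] at h2
    simpa using h2
  rw [hDf] at hg5
  exact GDV_sq D₀ g f hgp hD hg5

end Pool.Agent.RF
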