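import Pool.Agent.helper13.RF.SpecT

/-!
# RF (MP_16912e_nt), stage 2, part T: row TPQ

At most four primes above `l`.
-/

set_option autoImplicit false

namespace Pool.Agent.RF

open NumberField

/-- **TPQ.** -/
theorem TPQ : TPQ_stmt := by
  classical
  intro F _ _ hF l hl
  have hl0 : ((l : ℕ) : 𝓞 F) ≠ 0 := by
    exact_mod_cast hl.ne_zero
  have hI : Ideal.span {((l : ℕ) : 𝓞 F)} ≠ ⊥ := by
    rw [Ne, Ideal.span_singleton_eq_bot]
    exact hl0
  set s := UniqueFactorizationMonoid.normalizedFactors (Ideal.span {((l : ℕ) : 𝓞 F)}) with hs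
  have hprod : s.prod = Ideal.span {((l : ℕ) : 𝓞 F)} := Ideal.prod_normalizedFactors_eq_self hI
  have hnorm : Ideal.absNorm (Ideal.span {((l : ℕ) : 𝓞 F)}) = l ^ 4 := by
    rw [Ideal.absNorm_span_natCast, RingOfIntegers.rank, hF]
  have hmap : (s.map Ideal.absNorm).prod = l ^ 4 := by
    rw [← map_multiset_prod, hprod, hnorm]
  have hle : ∀ x ∈ s.map Ideal.absNorm, l ≤ x := by
    intro x hx
    obtain ⟨P, hP, rfl⟩ := Multiset.mem_map.1 hx
    have hPp : P.IsPrime := Ideal.isPrime_of_prime (UniqueFactorizationMonoid.prime_of_normalized_factor P hP)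
    have hd : Ideal.absNorm P ∣ l ^ 4 := by
      rw [← hmap]
      exact Multiset.dvd_prod (Multiset.mem_map_of_mem _ hP)
    obtain ⟨k, _, hk⟩ := (Nat.dvd_prime_pow hl).1 hd
    have hk0 : k ≠ 0 := by
      rintro rfl
      rw [pow_zero] at hk
      exact hPp.ne_top (Ideal.absNorm_eq_one_iff.1 hk)
    rw [hk]
    exact Nat.le_self_pow hk0 l
  have hcard : Multiset.card s ≤ 4 := by
    have h1 : l ^ Multiset.card (s.map Ideal.absNorm) ≤ (s.map Ideal.absNorm).prod :=
      Multiset.pow_card_le_prod hle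
    rw [hmap, Multiset.card_map] at h1
    exact (Nat.pow_le_pow_iff_right hl.one_lt).1 h1
  refine ⟨(Multiset.toFinset_card_le s).trans hcard, fun P _ => ?_⟩
  exact (Multiset.count_le_card P s).trans hcard

end Pool.Agent.RF
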