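import Pool.Agent.helper88.RF.SpecW

/-!
# RF (MP_16912e_nt), block C, part W: row WNS

The number of near points, on average over the moduli and the frequencies.
-/

set_option autoImplicit false

open Finset

namespace Pool.Agent.RF

lemma WNS_count (I : Finset ℕ) (K : Finset OO) (P : ℕ) (hI : I ⊆ Ico P (2 * P)) (p : ℕ → OO → Prop)
    [∀ h, DecidablePred (p h)] (N : ℕ → OO → Finset (ℤ × ℤ)) (X : Finset (ℕ × OO × ℤ × ℤ))
    (hX : ∀ h ∈ I, ∀ k ∈ K, p h k → ∀ w ∈ N h k, w ≠ 0 → (h, k, w) ∈ X)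
    (hX' : ∀ t ∈ X, t.1 ∈ Ico P (2 * P) ∧ t.2.1 ∈ K) :
    ∑ h ∈ I, ∑ k ∈ K.filter (p h), (N h k).card ≤ P * K.card + X.card := by
  classical
  have key : ∀ h ∈ I, ∀ k ∈ K.filter (p h), (N h k).card ≤ 1 + (X.filter (fun t => (t.1, t.2.1) = (h, k))).card := by
    intro h hh k hk
    obtain ⟨hk1, hk2⟩ := Finset.mem_filter.1 hk
    have hsub : N h k ⊆ insert (0 : ℤ × ℤ) ((X.filter (fun t => (t.1, t.2.1) = (h, k))).image (fun t => t.2.2)) := by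
      intro w hw
      by_cases h0 : w = 0
      · rw [h0]
        exact Finset.mem_insert_self _ _
      · refine Finset.mem_insert_of_mem (Finset.mem_image.2 ⟨(h, k, w), ?_, rfl⟩)
        exact Finset.mem_filter.2 ⟨hX h hh k hk1 hk2 w hw h0, rfl⟩
    calc (N h k).card ≤ _ := Finset.card_le_card hsub
      _ ≤ _ := Finset.card_insert_le _ _
      _ ≤ (X.filter (fun t => (t.1, t.2.1) = (h, k))).card + 1 := Nat.add_le_add_right Finset.card_image_le 1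
      _ = _ := add_comm _ _
  calc ∑ h ∈ I, ∑ k ∈ K.filter (p h), (N h k).card
      ≤ ∑ h ∈ I, ∑ k ∈ K.filter (p h), (1 + (X.filter (fun t => (t.1, t.2.1) = (h, k))).card) :=
        Finset.sum_le_sum (fun h hh => Finset.sum_le_sum (fun k hk => key h hh k hk))
    _ ≤ ∑ h ∈ I, ∑ k ∈ K, (1 + (X.filter (fun t => (t.1, t.2.1) = (h, k))).card) :=
        Finset.sum_le_sum (fun h _ => Finset.sum_le_sum_of_subset (Finset.filter_subset _ _))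
    _ ≤ ∑ h ∈ Ico P (2 * P), ∑ k ∈ K, (1 + (X.filter (fun t => (t.1, t.2.1) = (h, k))).card) :=
        Finset.sum_le_sum_of_subset hI
    _ = ∑ x ∈ Ico P (2 * P) ×ˢ K, (1 + (X.filter (fun t => (t.1, t.2.1) = x)).card) := by
        rw [Finset.sum_product]
    _ = P * K.card + X.card := by
        rw [Finset.sum_add_distrib]
        congr 1
        · rw [Finset.sum_const, Finset.card_product, Nat.card_Ico]
          simp only [smul_eq_mul, mul_one]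
          congr 1
          omega
        · symm
          apply Finset.card_eq_sum_card_fiberwise
          intro t ht
          exact Finset.mem_coe.mpr (Finset.mem_product.mpr (hX' t ht))

lemma WNS_nat {n : ℕ} (hn : 1 ≤ n) : (n : OO) ≠ 0 := by
  intro h
  have h1 := congrArg QuadraticAlgebra.re h
  rw [QuadraticAlgebra.re_natCast, QuadraticAlgebra.re_zero] at h1
  omega

/-- **WNS.** -/
theorem WNS_proof (hWDS : WDS_stmt) (hWC2 : WC2_stmt) (hWC3 : WC3_stmt) (hWEU : WEU_stmt) : WNS_stmt := by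
  intro C₀ ε hC₀ hε
  obtain ⟨C₁, hC₁, hDS⟩ := hWDS C₀ hC₀
  obtain ⟨C2, hC2, h2⟩ := hWC2 C₁ ε hC₁ hε
  obtain ⟨C3, hC3, h3⟩ := hWC3 C₁ ε hC₁ hε
  refine ⟨C2 + C3, by linarith, ?_⟩
  intro T Q B c d P G L g K r hQ hQT hB hc hd hP hPT hG hGT hL hLT hg hga hgb hQL hK hKd
  have : IsDomain OO := hWEU.1
  classical
  set N : ℕ → OO → Finset (ℤ × ℤ) := fun h k =>
    helper3.FT.nearPts B B (((d * h : ℕ) : ℝ) * (r k).1 / (k.norm.natAbs : ℝ) ^ 3) (((d * h : ℕ) : ℝ) * (r k).2.1 / (k.norm.natAbs : ℝ) ^ 3)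
    (((d * h : ℕ) : ℝ) * (r k).2.2 / (k.norm.natAbs : ℝ) ^ 3) with hN
  set X : Finset (ℕ × OO × ℤ × ℤ) := (Ico P (2 * P) ×ˢ K ×ˢ (Icc (-(4 * B : ℤ)) (4 * B) ×ˢ Icc (-(4 * B : ℤ)) (4 * B))).filter
    (fun t => ((d * t.1 * c : ℕ) : ℝ) * (B : ℝ) ^ 2 ≤ C₀ * (Q : ℝ) ^ 3 ∧ Nat.Coprime t.1 (5 * t.2.1.norm.natAbs) ∧
      t.2.2 ∈ N t.1 t.2.1 ∧ t.2.2 ≠ 0) with hX
  have hmem : ∀ (h : ℕ) (k : OO) (w : ℤ × ℤ), w ∈ N h k → (w.1 ∈ Icc (-(4 * B : ℤ)) (4 * B) ∧ w.2 ∈ Icc (-(4 * B : ℤ)) (4 * B)) ∧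
      helper3.FT.nd (2 * (((d * h : ℕ) : ℝ) * (r k).1 / (k.norm.natAbs : ℝ) ^ 3) * w.1 + ((d * h : ℕ) : ℝ) * (r k).2.1 / (k.norm.natAbs : ℝ) ^ 3 * w.2) ≤ 1 / B ∧
      helper3.FT.nd (((d * h : ℕ) : ℝ) * (r k).2.1 / (k.norm.natAbs : ℝ) ^ 3 * w.1 + 2 * (((d * h : ℕ) : ℝ) * (r k).2.2 / (k.norm.natAbs : ℝ) ^ 3) * w.2) ≤ 1 / B := by
    intro h k w hw
    rw [hN] at hw
    unfold helper3.FT.nearPts at hw
    obtain ⟨h1, h2⟩ := Finset.mem_filter.1 hw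
    exact ⟨Finset.mem_product.1 h1, h2⟩
  -- the sum
  have hsum : ∑ h ∈ (Ico P (2 * P)).filter (fun h => ((d * h * c : ℕ) : ℝ) * (B : ℝ) ^ 2 ≤ C₀ * (Q : ℝ) ^ 3),
      ∑ k ∈ K.filter (fun k => Nat.Coprime h (5 * k.norm.natAbs)), nearK B r (d * h) k ≤ P * (K.card : ℝ) + (X.card : ℝ) := by
    have h1 := WNS_count ((Ico P (2 * P)).filter (fun h => ((d * h * c : ℕ) : ℝ) * (B : ℝ) ^ 2 ≤ C₀ * (Q : ℝ) ^ 3)) K P
      (Finset.filter_subset _ _) (fun h k => Nat.Coprime h (5 * k.norm.natAbs)) N X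
      (fun h hh k hk hp w hw hw0 => by
        obtain ⟨hh1, hh2⟩ := Finset.mem_filter.1 hh
        rw [hX, Finset.mem_filter]
        refine ⟨?_, hh2, hp, hw, hw0⟩
        rw [Finset.mem_product, Finset.mem_product, Finset.mem_product]
        exact ⟨hh1, hk, (hmem h k w hw).1⟩)
      (fun t ht => by
        rw [hX, Finset.mem_filter, Finset.mem_product, Finset.mem_product] at ht
        exact ⟨ht.1.1, ht.1.2.1⟩)
    have h2 : ∑ h ∈ (Ico P (2 * P)).filter (fun h => ((d * h * c : ℕ) : ℝ) * (B : ℝ) ^ 2 ≤ C₀ * (Q : ℝ) ^ 3),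
        ∑ k ∈ K.filter (fun k => Nat.Coprime h (5 * k.norm.natAbs)), nearK B r (d * h) k =
        ((∑ h ∈ (Ico P (2 * P)).filter (fun h => ((d * h * c : ℕ) : ℝ) * (B : ℝ) ^ 2 ≤ C₀ * (Q : ℝ) ^ 3),
        ∑ k ∈ K.filter (fun k => Nat.Coprime h (5 * k.norm.natAbs)), (N h k).card : ℕ) : ℝ) := by
      rw [Nat.cast_sum]
      refine Finset.sum_congr rfl fun h _ => ?_
      rw [Nat.cast_sum]
      rfl
    rw [h2]
    exact_mod_cast h1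
  -- the map
  have hex : ∀ t : ℕ × OO × ℤ × ℤ, ∃ ez : OO × OO, t ∈ X → |va ez.1| ≤ C₁ * L ∧ |vb ez.1| ≤ C₁ * L ∧
      |va ez.2| ≤ C₁ * (G * L) ∧ |vb ez.2| ≤ C₁ * (G * L) ∧
      10 * ((d * t.1 : ℕ) : OO) * c * g * (⟨t.2.2.1, t.2.2.2⟩ : OO) = FF t.2.1 (g * ez.1) ez.2 := by
    intro t
    by_cases ht : t ∈ X
    · have ht' := ht
      rw [hX, Finset.mem_filter, Finset.mem_product, Finset.mem_product] at ht'
      obtain ⟨⟨ha1, ha2, _⟩, ha3, ha4, ha5, ha6⟩ := ht'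
      obtain ⟨⟨hb1, hb2⟩, hb3, hb4⟩ := hmem _ _ _ ha5
      obtain ⟨hk1, hk2, hk3⟩ := hK _ ha2
      have hcB : ((d * t.1 : ℕ) : ℝ) * (c : ℝ) * (B : ℝ) ^ 2 ≤ C₀ * (Q : ℝ) ^ 3 := by
        have e : ((d * t.1 * c : ℕ) : ℝ) = ((d * t.1 : ℕ) : ℝ) * (c : ℝ) := by push_cast; ring
        rw [← e]
        exact ha3
      obtain ⟨e, z, he1, he2, hz1, hz2, hez⟩ := hDS Q B c (d * t.1) G L t.2.1 g (r t.2.1).1 (r t.2.1).2.1 (r t.2.1).2.2 hk1 hQ hB hG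
        (by linarith) hk2 hga hgb hk3 hQL hcB t.2.2.1 t.2.2.2 (abs_le.2 (Finset.mem_Icc.1 hb1)) (abs_le.2 (Finset.mem_Icc.1 hb2)) hb3 hb4
      exact ⟨(e, z), fun _ => ⟨he1, he2, hz1, hz2, hez⟩⟩
    · exact ⟨0, fun h => absurd h ht⟩
  choose F hF using hex
  set φ : ℕ × OO × ℤ × ℤ → ℕ × OO × OO × OO := fun t => (t.1, t.2.1, (F t).1, (F t).2) with hφ
  have hXt : ∀ t ∈ X, (P ≤ t.1 ∧ t.1 < 2 * P) ∧ t.2.1 ∈ K ∧ Nat.Coprime t.1 (5 * t.2.1.norm.natAbs) ∧ t.2.2 ≠ 0 := by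
    intro t ht
    rw [hX, Finset.mem_filter, Finset.mem_product, Finset.mem_product] at ht
    exact ⟨Finset.mem_Ico.1 ht.1.1, ht.1.2.1, ht.2.2.1, ht.2.2.2.2⟩
  have hco : ∀ t ∈ X, 10 * ((d * t.1 : ℕ) : OO) * c * g ≠ 0 := by
    intro t ht
    obtain ⟨⟨h4, _⟩, _⟩ := hXt t ht
    have h5 : (10 : OO) ≠ 0 := by
      have := WNS_nat (n := 10) (by norm_num)
      exact_mod_cast this
    have h6 : ((d * t.1 : ℕ) : OO) ≠ 0 := WNS_nat (Nat.one_le_iff_ne_zero.2 (Nat.mul_ne_zero (by omega) (by omega)))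
    exact mul_ne_zero (mul_ne_zero (mul_ne_zero h5 h6) (WNS_nat hc)) hg
  have hinj : Set.InjOn φ (X : Set (ℕ × OO × ℤ × ℤ)) := by
    intro t ht t' ht' hEq
    have ht : t ∈ X := ht
    have ht' : t' ∈ X := ht'
    simp only [hφ, Prod.mk.injEq] at hEq
    obtain ⟨e1, e2, e3, e4⟩ := hEq
    have h5 := (hF t ht).2.2.2.2
    have h6 := (hF t' ht').2.2.2.2
    rw [← e1, ← e2, ← e3, ← e4, ← h5] at h6
    have h7 := mul_left_cancel₀ (hco t ht) h6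
    have h8 := congrArg QuadraticAlgebra.re h7
    have h9 := congrArg QuadraticAlgebra.im h7
    simp only at h8 h9
    exact Prod.ext e1 (Prod.ext e2 (Prod.ext h8.symm h9.symm))
  have hcard : X.card = ((X.image φ).filter (fun t => R0 (g * t.2.2.1) t.2.2.2 ≠ 0)).card +
      ((X.image φ).filter (fun t => ¬ R0 (g * t.2.2.1) t.2.2.2 ≠ 0)).card := by
    rw [Finset.card_filter_add_card_filter_not, Finset.card_image_of_injOn hinj]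
  -- properties of the image
  have hdvd : ∀ t ∈ X, (t.1 : OO) ∣ FF t.2.1 (g * (F t).1) (F t).2 ∧ FF t.2.1 (g * (F t).1) (F t).2 ≠ 0 := by
    intro t ht
    have h5 := (hF t ht).2.2.2.2
    rw [← h5]
    refine ⟨⟨10 * d * c * g * ⟨t.2.2.1, t.2.2.2⟩, by push_cast; ring⟩, mul_ne_zero (hco t ht) fun h0 => ?_⟩
    have h8 := congrArg QuadraticAlgebra.re h0
    have h9 := congrArg QuadraticAlgebra.im h0
    simp only [QuadraticAlgebra.re_zero, QuadraticAlgebra.im_zero] at h8 h9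
    exact (hXt t ht).2.2.2 (Prod.ext h8 h9)
  have hdiv : ∀ S : Finset (ℕ × OO × OO × OO), S ⊆ X.image φ → ∀ t ∈ S, ∀ t₁ ∈ S, t.2.1 ∣ t₁.2.1 → t.2.1 = t₁.2.1 := by
    intro S hS t ht t₁ ht₁ h
    obtain ⟨x, hx, rfl⟩ := Finset.mem_image.1 (hS ht)
    obtain ⟨x₁, hx₁, rfl⟩ := Finset.mem_image.1 (hS ht₁)
    exact hKd _ (hXt x hx).2.1 _ (hXt x₁ hx₁).2.1 h
  have hA := h2 T Q P G L g hQ hQT hP hPT hG hGT hL hLT hg hga hgb ((X.image φ).filter (fun t => R0 (g * t.2.2.1) t.2.2.2 ≠ 0))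
    (fun t ht => by
      obtain ⟨ht1, ht2⟩ := Finset.mem_filter.1 ht
      obtain ⟨x, hx, rfl⟩ := Finset.mem_image.1 ht1
      obtain ⟨⟨p1, p2⟩, p3, p4, p5⟩ := hXt x hx
      obtain ⟨q1, q2, q3, q4, _⟩ := hF x hx
      exact ⟨p1, p2, (hK _ p3).1, p4, q1, q2, q3, q4, (hdvd x hx).1, ht2⟩)
    (hdiv _ (Finset.filter_subset _ _))
  have hBd := h3 T Q P G L g hQ hQT hP hPT hG hGT hL hLT hg hga hgb ((X.image φ).filter (fun t => ¬ R0 (g * t.2.2.1) t.2.2.2 ≠ 0))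
    (fun t ht => by
      obtain ⟨ht1, ht2⟩ := Finset.mem_filter.1 ht
      obtain ⟨x, hx, rfl⟩ := Finset.mem_image.1 ht1
      obtain ⟨⟨p1, p2⟩, p3, p4, p5⟩ := hXt x hx
      obtain ⟨q1, q2, q3, q4, _⟩ := hF x hx
      exact ⟨p1, p2, (hK _ p3).1, q1, q2, q3, q4, (hdvd x hx).1, (hdvd x hx).2, not_not.1 ht2⟩)
  refine hsum.trans ?_
  rw [hcard, Nat.cast_add]
  have hT : (0 : ℝ) ≤ (T : ℝ) ^ ε := Real.rpow_nonneg (Nat.cast_nonneg T) ε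
  have hU : 0 ≤ G ^ 2 * L ^ 4 * (1 + (Q : ℝ) / P) := by positivity
  have hV : 0 ≤ (Q : ℝ) * L ^ 2 := by positivity
  have h7 : C2 * (T : ℝ) ^ ε * (G ^ 2 * L ^ 4 * (1 + Q / P)) + C3 * (T : ℝ) ^ ε * (Q * L ^ 2) ≤
      (C2 + C3) * (T : ℝ) ^ ε * (G ^ 2 * L ^ 4 * (1 + Q / P) + Q * L ^ 2) := by
    have h8 : 0 ≤ C3 * (T : ℝ) ^ ε * (G ^ 2 * L ^ 4 * (1 + Q / P)) := by positivity
    have h9 : 0 ≤ C2 * (T : ℝ) ^ ε * (Q * L ^ 2) := by positivity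
    have h10 : (C2 + C3) * (T : ℝ) ^ ε * (G ^ 2 * L ^ 4 * (1 + Q / P) + Q * L ^ 2) =
      C2 * (T : ℝ) ^ ε * (G ^ 2 * L ^ 4 * (1 + Q / P)) + C3 * (T : ℝ) ^ ε * (Q * L ^ 2) +
      C3 * (T : ℝ) ^ ε * (G ^ 2 * L ^ 4 * (1 + Q / P)) + C2 * (T : ℝ) ^ ε * (Q * L ^ 2) := by ring
    linarith
  linarith

end Pool.Agent.RF
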